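import Pool.Agent.Helper81.LT.Inc

/-!
# Homogeneous sequences (packet DIAG)
-/

set_option autoImplicit false

namespace Pool.Agent.Helper39.LT

open Pool.Agent.Helper81.LT Filter

/-- iterated ultrafilter limit of a relation on lists -/
def FU {κ : Type} (U : Ultrafilter ℕ) (R : κ → List ℕ → List ℕ → Prop) :
    ℕ → κ → List ℕ → List ℕ → Prop
  | 0, c, w, p => R c w p
  | m + 1, c, w, p => ∀ᶠ y in (U : Filter ℕ), FU U R m c w (p ++ [y])

/-- `y` continues the list `L` well -/
def Good {κ : Type} (U : Ultrafilter ℕ) (R : κ → List ℕ → List ℕ → Prop) (k : ℕ)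
    (L : List ℕ) (y : ℕ) : Prop :=
  (∀ a ∈ L, (a + 2) * (a + 2) ≤ y) ∧
    ∀ c : κ, ∀ w ∈ {w : List ℕ | w.length ≤ k ∧ ∀ e ∈ w, ∃ a ∈ L, e < a},
      ∀ p ∈ {p : List ℕ | p <:+ L}, ∀ m ∈ Set.Iio k,
        (FU U R m c w (p ++ [y]) ↔ FU U R (m + 1) c w p)

theorem finite_w (k : ℕ) (L : List ℕ) :
    {w : List ℕ | w.length ≤ k ∧ ∀ e ∈ w, ∃ a ∈ L, e < a}.Finite := by
  classical
  have hfin : (Set.image (List.map (Fin.val : Fin L.sum → ℕ))
      {l : List (Fin L.sum) | l.length ≤ k}).Finite :=
    (List.finite_length_le (Fin L.sum) k).image _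
  refine hfin.subset ?_
  rintro w ⟨hw, hw2⟩
  have hlt : ∀ e ∈ w, e < L.sum := by
    intro e he
    obtain ⟨a, ha, hea⟩ := hw2 e he
    exact lt_of_lt_of_le hea (List.single_le_sum (fun _ _ => Nat.zero_le _) a ha)
  refine ⟨w.attach.map fun e => ⟨e.1, hlt e.1 e.2⟩, ?_, ?_⟩
  · simpa using hw
  · simp [List.map_map, Function.comp_def]

theorem ex_good {κ : Type} [Finite κ] (U : Ultrafilter ℕ) (hU : (U : Filter ℕ) ≤ atTop)
    (R : κ → List ℕ → List ℕ → Prop) (k : ℕ) (L : List ℕ) : ∃ y, Good U R k L y := by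
  have h1 : ∀ᶠ y in (U : Filter ℕ), ∀ a ∈ {a | a ∈ L}, (a + 2) * (a + 2) ≤ y := by
    rw [eventually_all_finite (List.finite_toSet L)]
    intro a _
    exact hU (eventually_ge_atTop _)
  have h2 : ∀ᶠ y in (U : Filter ℕ), ∀ c : κ,
      ∀ w ∈ {w : List ℕ | w.length ≤ k ∧ ∀ e ∈ w, ∃ a ∈ L, e < a},
      ∀ p ∈ {p : List ℕ | p <:+ L}, ∀ m ∈ Set.Iio k,
        (FU U R m c w (p ++ [y]) ↔ FU U R (m + 1) c w p) := by
    rw [eventually_all]
    intro c
    rw [eventually_all_finite (finite_w k L)]
    intro w _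
    have hs : {p : List ℕ | p <:+ L}.Finite := by
      have : {p : List ℕ | p <:+ L} = {p | p ∈ L.tails} := by
        ext p
        simp
      rw [this]
      exact List.finite_toSet _
    rw [eventually_all_finite hs]
    intro p _
    rw [eventually_all_finite (Set.finite_Iio k)]
    intro m _
    by_cases hm : ∀ᶠ y in (U : Filter ℕ), FU U R m c w (p ++ [y])
    · filter_upwards [hm] with y hy
      exact ⟨fun _ => hm, fun _ => hy⟩
    · have hm2 := Ultrafilter.eventually_not.mpr hm
      filter_upwards [hm2] with y hy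
      exact ⟨fun h => absurd h hy, fun h => absurd h hm⟩
  obtain ⟨y, hy1, hy2⟩ := (h1.and h2).exists
  exact ⟨y, hy1, hy2⟩

theorem diag : DIAG := by
  classical
  intro κ _ R k
  set U : Ultrafilter ℕ := hyperfilter ℕ with hUdef
  have hU : (U : Filter ℕ) ≤ atTop := by
    rw [hUdef]
    exact Nat.hyperfilter_le_atTop
  choose nx hnx using ex_good U hU R k
  let L : ℕ → List ℕ := fun n => Nat.rec [k] (fun _ l => l ++ [nx l]) n
  have hL : ∀ n, L (n + 1) = L n ++ [nx (L n)] := fun n => rfl
  let X : ℕ → ℕ := fun n => Nat.casesOn n k fun n => nx (L n)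
  have hX0 : X 0 = k := rfl
  have hX : ∀ n, X (n + 1) = nx (L n) := fun n => rfl
  have hLX : ∀ n, L n = (List.range (n + 1)).map X := by
    intro n
    induction n with
    | zero => rfl
    | succ n ih =>
      rw [hL, List.range_succ, List.map_append, ← ih]
      simp [hX]
  have hmem : ∀ i n, i ≤ n → X i ∈ L n := by
    intro i n hin
    rw [hLX]
    exact List.mem_map.mpr ⟨i, List.mem_range.mpr (by omega), rfl⟩
  refine ⟨X, le_of_eq hX0.symm, ?_, ?_⟩
  · intro i
    rw [hX]
    exact (hnx (L i)).1 (X i) (hmem i i le_rfl)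
  · have key : ∀ (c : κ) (i : ℕ) (w : List ℕ), w.length ≤ k → (∀ e ∈ w, e < X i) → ∀ n, i ≤ n →
        ∀ m', m' ≤ k → (FU U R (k - m') c w (blk X (n + 1) m') ↔ FU U R k c w []) := by
      intro c i w hw hwX n hin m'
      induction m' with
      | zero =>
        intro _
        simp [blk]
      | succ m' ih =>
        intro hm
        have hblk : blk X (n + 1) (m' + 1) = blk X (n + 1) m' ++ [X (n + 1 + m')] := by
          unfold blk
          rw [List.range_succ, List.map_append]
          rfl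
        have hsuf : blk X (n + 1) m' <:+ L (n + m') := by
          rw [hLX, show n + m' + 1 = (n + 1) + m' by omega, List.range_add, List.map_append,
            List.map_map]
          exact List.suffix_append _ _
        have hg := (hnx (L (n + m'))).2 c w
          ⟨hw, fun e he => ⟨X i, hmem i _ (by omega), hwX e he⟩⟩ (blk X (n + 1) m') hsuf
          (k - (m' + 1)) (by simp only [Set.mem_Iio]; omega)
        rw [← hX, show n + m' + 1 = n + 1 + m' by omega,
          show k - (m' + 1) + 1 = k - m' by omega, ← hblk] at hg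
        rw [hg]
        exact ih (by omega)
    intro c i w hw hwX
    have h1 := key c i w hw hwX i le_rfl k le_rfl
    have h2 := key c i w hw hwX (i + 1) (by omega) k le_rfl
    rw [Nat.sub_self] at h1 h2
    exact h1.trans h2.symm

end Pool.Agent.Helper39.LT
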